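import Mathlib
import Pool.Agent.H96.RW.Fin
import Pool.Agent.H96.RW.Fin2

/-!
# MP_6369e2_pr: collisions of transient walks in random environment with simple random walk,
`κ = 1/2`
-/

namespace Pool.Agent.Results.MP_6369e2_pr.InfinitelyManyCollisions

open MeasureTheory ProbabilityTheory Filter Topology Pool.Agent.H96.RW
open scoped ENNReal

/-- Let `p` be a law on `[ε, 1 - ε]` with `E log ρ < 0` and `E ρ^(1/2) = 1` (that is, `κ = 1/2`),
where `ρ = (1 - a)/a`. For every number `d` of walks in the common i.i.d. environment with law `p`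
and all starting points of the same parity, there are almost surely infinitely many collisions of
the `d` walks and the independent simple random walk. The first statement is for the quenched
laws, the second one for the annealed law. -/
theorem result (d : ℕ) (p : Measure ℝ) [IsProbabilityMeasure p] (ε : ℝ) (hε : 0 < ε)
    (hε2 : ε < 1 / 2) (hp : ∀ᵐ a ∂p, ε ≤ a ∧ a ≤ 1 - ε)
    (hlog : ∫ a, Real.log ((1 - a) / a) ∂p < 0)
    (hκ : ∫ a, ((1 - a) / a) ^ (1 / 2 : ℝ) ∂p = 1)
    (x : Fin d → ℤ) (z : ℤ) (hx : ∀ j, Even (x j - z)) :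
    (∀ᵐ w ∂(Measure.infinitePi fun _ : ℤ => p), ∀ᵐ u ∂(nz d),
      ∃ᶠ n in atTop, Coll w x z u n) ∧
    (∀ᵐ q ∂((Measure.infinitePi fun _ : ℤ => p).prod (nz d)),
      ∃ᶠ n in atTop, Coll q.1 x z q.2 n) := by
  have h := collisions d p ε hε hε2 hp hlog hκ x z hx
  exact ⟨h, annealed _ x z h⟩

end Pool.Agent.Results.MP_6369e2_pr.InfinitelyManyCollisions
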